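import Mathlib
import Pool.Agent.H438R2.Lower

set_option autoImplicit false

open Set Matrix MeasureTheory Metric Pool.Agent.H438R2
open scoped ENNReal

namespace Pool.Agent.W2helper5.PosForm

/-- the triples `(p, q, r)` with `p, q > 0` and `|p θ₀ + q θ₁ + r| < c max(p, q)^(-w)` -/
def Tr (w c : ℝ) (θ : Fin 2 → ℝ) : Set (ℤ × ℤ × ℤ) :=
  {t | 0 < t.1 ∧ 0 < t.2.1 ∧
    |(t.1 : ℝ) * θ 0 + (t.2.1 : ℝ) * θ 1 + (t.2.2 : ℝ)| < c * ((max t.1 t.2.1 : ℤ) : ℝ) ^ (-w)}

/-- the set `E(w)` in the plane with the maximum norm -/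
def E' (w : ℝ) : Set (Fin 2 → ℝ) := {θ | ∃ c : ℝ, 0 < c ∧ (Tr w c θ).Infinite}

/-! ## the normal vector of a rational plane -/

theorem normal {L : Submodule ℝ (Fin 3 → ℝ)} {p : (Fin 2 → Fin 3) → ℤ} (h : IsPP L p) :
    ∃ a : Fin 3 → ℤ, (∀ f, ∃ k, (p f).natAbs ≤ (a k).natAbs) ∧ (∀ k, (a k).natAbs ≤ ht p) ∧
      ∀ x ∈ L, (a 0 : ℝ) * x 0 + a 1 * x 1 + a 2 * x 2 = 0 := by
  obtain ⟨B, hB, hBL, c, hc, hm⟩ := h.ex
  have key : ∀ f : Fin 2 → Fin 3, c * p f = B 0 (f 0) * B 1 (f 1) - B 0 (f 1) * B 1 (f 0) := by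
    intro f
    rw [← hm f]
    simp [mnr, det_fin_two]
  refine ⟨![p ![1, 2], - p ![0, 2], p ![0, 1]], ?_, ?_, ?_⟩
  · intro f
    have h0 := key f
    have h12 := key ![1, 2]
    have h02 := key ![0, 2]
    have h01 := key ![0, 1]
    simp only [cons_val_zero, cons_val_one] at h12 h02 h01
    obtain ⟨i, hi⟩ : ∃ i, f 0 = i := ⟨_, rfl⟩
    obtain ⟨j, hj⟩ : ∃ j, f 1 = j := ⟨_, rfl⟩
    rw [hi, hj] at h0
    have e : (p f = 0) ∨ (p f = p ![1, 2] ∨ p f = - p ![1, 2]) ∨ (p f = p ![0, 2] ∨ p f = - p ![0, 2]) ∨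
        (p f = p ![0, 1] ∨ p f = - p ![0, 1]) := by
      fin_cases i <;> fin_cases j <;> simp only [Fin.zero_eta, Fin.mk_one, Fin.reduceFinMk, Fin.isValue] at h0
      · left; exact (mul_eq_zero.1 (h0.trans (by ring))).resolve_left hc
      · right; right; right; left; exact mul_left_cancel₀ hc (h0.trans h01.symm)
      · right; right; left; left; exact mul_left_cancel₀ hc (h0.trans h02.symm)
      · right; right; right; right; refine mul_left_cancel₀ hc (h0.trans ?_); linear_combination h01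
      · left; exact (mul_eq_zero.1 (h0.trans (by ring))).resolve_left hc
      · right; left; left; exact mul_left_cancel₀ hc (h0.trans h12.symm)
      · right; right; left; right; refine mul_left_cancel₀ hc (h0.trans ?_); linear_combination h02
      · right; left; right; refine mul_left_cancel₀ hc (h0.trans ?_); linear_combination h12
      · left; exact (mul_eq_zero.1 (h0.trans (by ring))).resolve_left hc
    rcases e with e | (e | e) | (e | e) | (e | e)
    · exact ⟨0, by rw [e]; simp⟩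
    · exact ⟨0, by rw [e]; simp⟩
    · exact ⟨0, by rw [e]; simp⟩
    · exact ⟨1, by rw [e]; simp⟩
    · exact ⟨1, by rw [e]; simp⟩
    · exact ⟨2, by rw [e]; simp⟩
    · exact ⟨2, by rw [e]; simp⟩
  · intro k
    fin_cases k
    · exact le_ht p _
    · show (-(p ![0, 2])).natAbs ≤ ht p
      rw [Int.natAbs_neg]; exact le_ht p _
    · exact le_ht p _
  · intro x hx
    rw [← hBL] at hx
    induction hx using Submodule.span_induction with
    | mem x hx =>
      obtain ⟨i, rfl⟩ := hx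
      have h12 := key ![1, 2]
      have h02 := key ![0, 2]
      have h01 := key ![0, 1]
      simp only [cons_val_zero, cons_val_one] at h12 h02 h01
      have hz : (p ![1, 2]) * B i 0 + (- p ![0, 2]) * B i 1 + (p ![0, 1]) * B i 2 = 0 := by
        refine (mul_eq_zero.1 (?_ : c * _ = 0)).resolve_left hc
        fin_cases i
        · simp only [Fin.zero_eta]
          linear_combination (B 0 0) * h12 - (B 0 1) * h02 + (B 0 2) * h01
        · simp only [Fin.mk_one]
          linear_combination (B 1 0) * h12 - (B 1 1) * h02 + (B 1 2) * h01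
      simp only [cons_val_zero, cons_val_one, cons_val_two]
      exact_mod_cast hz
    | zero => simp
    | add x y _ _ hx hy =>
      simp only [Pi.add_apply]
      linear_combination hx + hy
    | smul t x _ hx =>
      simp only [Pi.smul_apply, smul_eq_mul]
      linear_combination t * hx

/-! ## the lower inclusion -/

/-- the triples with coefficients of any sign -/
def TrAll (w : ℝ) (θ : Fin 2 → ℝ) : Set (ℤ × ℤ × ℤ) :=
  {t | (t.1 ≠ 0 ∨ t.2.1 ≠ 0) ∧
    |(t.1 : ℝ) * θ 0 + (t.2.1 : ℝ) * θ 1 + (t.2.2 : ℝ)| < 3 * ((max |t.1| |t.2.1| : ℤ) : ℝ) ^ (-w)}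

theorem trAll_infinite (w w' : ℝ) (hw : 0 < w) (hww : w ≤ w') (θ : Fin 2 → ℝ)
    (h : θ ∈ WS 2 2 1 (w' + 1)) : (TrAll w θ).Infinite := by
  classical
  intro hfin
  -- bound for the height
  obtain ⟨H, hH⟩ : ∃ H : ℕ, ∀ t ∈ TrAll w θ, t.1.natAbs ≤ H ∧ t.2.1.natAbs ≤ H ∧ t.2.2.natAbs ≤ H := by
    refine ⟨hfin.toFinset.sup (fun t => max t.1.natAbs (max t.2.1.natAbs t.2.2.natAbs)), ?_⟩
    intro t ht
    have h1 := Finset.le_sup (f := fun t : ℤ × ℤ × ℤ => max t.1.natAbs (max t.2.1.natAbs t.2.2.natAbs))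
      (hfin.mem_toFinset.2 ht)
    simp only [max_le_iff] at h1
    exact h1
  refine h ((finite_ht (r := 2) (N := 3) H).subset ?_)
  rintro L ⟨p, hp, P, hPL, hP0, hPθ⟩
  obtain ⟨a, ha1, ha2, ha3⟩ := normal hp
  refine ⟨p, hp, ?_⟩
  -- the triple belonging to `L`
  have hP := ha3 P hPL
  rw [hP0, mul_one] at hP
  have hne : a 1 ≠ 0 ∨ a 2 ≠ 0 := by
    by_contra hcon
    push Not at hcon
    rw [hcon.1, hcon.2] at hP
    simp only [Int.cast_zero, zero_mul, add_zero, Int.cast_eq_zero] at hP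
    have hz : ∀ k, a k = 0 := by
      intro k; fin_cases k
      · exact hP
      · exact hcon.1
      · exact hcon.2
    have h2 := hp.prim 2 (fun f => by
      obtain ⟨k, hk⟩ := ha1 f
      rw [hz k] at hk
      simp only [Int.natAbs_zero, nonpos_iff_eq_zero, Int.natAbs_eq_zero] at hk
      rw [hk]; exact dvd_zero _)
    rw [Int.isUnit_iff] at h2
    omega
  set M : ℤ := max |a 1| |a 2| with hMdef
  have hM1 : 1 ≤ M := by
    rcases hne with h1 | h1
    · exact le_max_of_le_left (Int.one_le_abs h1)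
    · exact le_max_of_le_right (Int.one_le_abs h1)
  have hMR : (1 : ℝ) ≤ M := by exact_mod_cast hM1
  have hMht : (M : ℝ) ≤ ht p := by
    have h1 : M ≤ (ht p : ℤ) := by
      refine max_le ?_ ?_
      · rw [Int.abs_eq_natAbs]; exact_mod_cast ha2 1
      · rw [Int.abs_eq_natAbs]; exact_mod_cast ha2 2
    exact_mod_cast h1
  have hmem : (a 1, a 2, a 0) ∈ TrAll w θ := by
    refine ⟨hne, ?_⟩
    simp only
    have h1 : (a 1 : ℝ) * θ 0 + a 2 * θ 1 + a 0 = a 1 * (θ 0 - P 1) + a 2 * (θ 1 - P 2) := by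
      linear_combination hP
    have h2 := hPθ 0
    have h3 := hPθ 1
    simp only [Fin.succ_zero_eq_one, Fin.succ_one_eq_two, one_mul] at h2 h3
    rw [abs_sub_comm] at h2 h3
    have h4 : |(a 1 : ℝ)| ≤ M := by
      have : |a 1| ≤ M := le_max_left _ _
      exact_mod_cast this
    have h5 : |(a 2 : ℝ)| ≤ M := by
      have : |a 2| ≤ M := le_max_right _ _
      exact_mod_cast this
    have hM0 : (0 : ℝ) < M := by linarith
    calc |(a 1 : ℝ) * θ 0 + a 2 * θ 1 + a 0| = |(a 1 : ℝ) * (θ 0 - P 1) + a 2 * (θ 1 - P 2)| := by rw [h1]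
      _ ≤ |(a 1 : ℝ)| * |θ 0 - P 1| + |(a 2 : ℝ)| * |θ 1 - P 2| := by
          refine (abs_add_le _ _).trans ?_
          rw [abs_mul, abs_mul]
      _ ≤ M * (ht p : ℝ) ^ (-(w' + 1)) + M * (ht p : ℝ) ^ (-(w' + 1)) := by gcongr
      _ ≤ M * (M : ℝ) ^ (-(w' + 1)) + M * (M : ℝ) ^ (-(w' + 1)) := by
          have : (ht p : ℝ) ^ (-(w' + 1)) ≤ (M : ℝ) ^ (-(w' + 1)) :=
            Real.rpow_le_rpow_of_nonpos hM0 hMht (by linarith)
          gcongr
      _ = 2 * (M : ℝ) ^ (-w') := by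
          have : (M : ℝ) ^ (-w') = M * (M : ℝ) ^ (-(w' + 1)) := by
            rw [← Real.rpow_one_add' hM0.le (by linarith)]; congr 1; ring
          rw [this]; ring
      _ < 3 * (M : ℝ) ^ (-w') := by
          have : 0 < (M : ℝ) ^ (-w') := by positivity
          linarith
      _ ≤ 3 * (M : ℝ) ^ (-w) := by
          have := Real.rpow_le_rpow_of_exponent_le hMR (neg_le_neg hww)
          gcongr
  obtain ⟨k1, k2, k3⟩ := hH _ hmem
  simp only at k1 k2 k3
  rw [ht_le_iff]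
  intro f
  obtain ⟨k, hk⟩ := ha1 f
  refine hk.trans ?_
  fin_cases k
  · exact k3
  · exact k1
  · exact k2

/-- the reflection -/
noncomputable def S1 : (Fin 2 → ℝ) ≃L[ℝ] (Fin 2 → ℝ) :=
  LinearEquiv.toContinuousLinearEquiv
    { toFun := fun θ => ![θ 0, -θ 1]
      invFun := fun θ => ![θ 0, -θ 1]
      map_add' := fun x y => by ext i; fin_cases i <;> simp; ring
      map_smul' := fun x y => by ext i; fin_cases i <;> simp
      left_inv := fun x => by ext i; fin_cases i <;> simp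
      right_inv := fun x => by ext i; fin_cases i <;> simp }

/-- a shear -/
noncomputable def S2 : (Fin 2 → ℝ) ≃L[ℝ] (Fin 2 → ℝ) :=
  LinearEquiv.toContinuousLinearEquiv
    { toFun := fun θ => ![θ 0, θ 1 - θ 0]
      invFun := fun θ => ![θ 0, θ 1 + θ 0]
      map_add' := fun x y => by ext i; fin_cases i <;> simp; ring
      map_smul' := fun x y => by ext i; fin_cases i <;> simp; ring
      left_inv := fun x => by ext i; fin_cases i <;> simp
      right_inv := fun x => by ext i; fin_cases i <;> simp }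

/-- a shear -/
noncomputable def S3 : (Fin 2 → ℝ) ≃L[ℝ] (Fin 2 → ℝ) :=
  LinearEquiv.toContinuousLinearEquiv
    { toFun := fun θ => ![θ 0 - θ 1, θ 1]
      invFun := fun θ => ![θ 0 + θ 1, θ 1]
      map_add' := fun x y => by ext i; fin_cases i <;> simp; ring
      map_smul' := fun x y => by ext i; fin_cases i <;> simp; ring
      left_inv := fun x => by ext i; fin_cases i <;> simp
      right_inv := fun x => by ext i; fin_cases i <;> simp }

theorem S1_zero (θ : Fin 2 → ℝ) : S1 θ 0 = θ 0 := rfl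
theorem S1_one (θ : Fin 2 → ℝ) : S1 θ 1 = -θ 1 := rfl
theorem S2_zero (θ : Fin 2 → ℝ) : S2 θ 0 = θ 0 := rfl
theorem S2_one (θ : Fin 2 → ℝ) : S2 θ 1 = θ 1 - θ 0 := rfl
theorem S3_zero (θ : Fin 2 → ℝ) : S3 θ 0 = θ 0 - θ 1 := rfl
theorem S3_one (θ : Fin 2 → ℝ) : S3 θ 1 = θ 1 := rfl

theorem lower_sub (w w' : ℝ) (hw : 0 < w) (hww : w ≤ w') :
    {θ : Fin 2 → ℝ | θ ∈ cube 2 ∧ θ ∈ WS 2 2 1 (w' + 1)} ⊆
      ((E' w ∪ S1 ⁻¹' E' w) ∪ S2 ⁻¹' E' w) ∪ S3 ⁻¹' E' w := by
  rintro θ ⟨_, hθ⟩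
  have hinf := trAll_infinite w w' hw hww θ hθ
  by_contra hcon
  simp only [mem_union, not_or, mem_preimage] at hcon
  obtain ⟨⟨⟨h0, h1⟩, h2⟩, h3⟩ := hcon
  have fin : ∀ x : Fin 2 → ℝ, x ∉ E' w → (Tr w 3 x).Finite := by
    intro x hx
    by_contra hc
    exact hx ⟨3, by norm_num, hc⟩
  have f0 := fin _ h0
  have f1 := fin _ h1
  have f2 := fin _ h2
  have f3 := fin _ h3
  apply hinf
  refine ((((f0.union (f0.image fun t => (-t.1, -t.2.1, -t.2.2))).union
    ((f1.image fun t => (t.1, -t.2.1, t.2.2)).union (f1.image fun t => (-t.1, t.2.1, -t.2.2)))).union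
    ((f2.image fun t => (0, t.1, t.2.2)).union (f2.image fun t => (0, -t.1, -t.2.2)))).union
    ((f3.image fun t => (t.1, 0, t.2.2)).union (f3.image fun t => (-t.1, 0, -t.2.2)))).subset ?_
  rintro ⟨p, q, r⟩ ⟨hne, hlt⟩
  simp only at hne hlt
  have habs : ∀ x y : ℝ, x = -y → |x| = |y| := by
    intro x y h; rw [h, abs_neg]
  rcases lt_trichotomy p 0 with hp | hp | hp
  · rcases lt_trichotomy q 0 with hq | hq | hq
    · left; left; left; right
      refine ⟨(-p, -q, -r), ⟨by simpa using hp, by simpa using hq, ?_⟩, by simp⟩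
      simp only
      rw [abs_of_neg hp, abs_of_neg hq] at hlt
      rw [habs _ ((p : ℝ) * θ 0 + q * θ 1 + r) (by push_cast; ring)]
      exact hlt
    · right; right
      refine ⟨(-p, -p, -r), ⟨by simpa using hp, by simpa using hp, ?_⟩, by simp [hq]⟩
      simp only
      rw [hq, abs_of_neg hp, abs_zero, max_eq_left (by omega)] at hlt
      rw [max_self, S3_zero, S3_one, habs _ ((p : ℝ) * θ 0 + (0 : ℤ) * θ 1 + r) (by push_cast; ring)]
      exact hlt
    · left; left; right; right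
      refine ⟨(-p, q, -r), ⟨by simpa using hp, hq, ?_⟩, by simp⟩
      simp only
      rw [abs_of_neg hp, abs_of_pos hq] at hlt
      rw [S1_zero, S1_one, habs _ ((p : ℝ) * θ 0 + q * θ 1 + r) (by push_cast; ring)]
      exact hlt
  · have hq0 : q ≠ 0 := by
      rcases hne with h | h
      · exact absurd hp h
      · exact h
    rcases lt_trichotomy q 0 with hq | hq | hq
    · left; right; right
      refine ⟨(-q, -q, -r), ⟨by simpa using hq, by simpa using hq, ?_⟩, by simp [hp]⟩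
      simp only
      rw [hp, abs_of_neg hq, abs_zero, max_eq_right (by omega)] at hlt
      rw [max_self, S2_zero, S2_one, habs _ (((0 : ℤ) : ℝ) * θ 0 + q * θ 1 + r) (by push_cast; ring)]
      exact hlt
    · exact absurd hq hq0
    · left; right; left
      refine ⟨(q, q, r), ⟨hq, hq, ?_⟩, by simp [hp]⟩
      simp only
      rw [hp, abs_of_pos hq, abs_zero, max_eq_right (by omega)] at hlt
      have e : (q : ℝ) * S2 θ 0 + q * S2 θ 1 + r = ((0 : ℤ) : ℝ) * θ 0 + q * θ 1 + r := by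
        rw [S2_zero, S2_one]; push_cast; ring
      rw [max_self, e]
      exact hlt
  · rcases lt_trichotomy q 0 with hq | hq | hq
    · left; left; right; left
      refine ⟨(p, -q, r), ⟨hp, by simpa using hq, ?_⟩, by simp⟩
      simp only
      rw [abs_of_pos hp, abs_of_neg hq] at hlt
      have e : (p : ℝ) * S1 θ 0 + ((-q : ℤ) : ℝ) * S1 θ 1 + r = p * θ 0 + q * θ 1 + r := by
        rw [S1_zero, S1_one]; push_cast; ring
      rw [e]
      exact hlt
    · right; left
      refine ⟨(p, p, r), ⟨hp, hp, ?_⟩, by simp [hq]⟩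
      simp only
      rw [hq, abs_of_pos hp, abs_zero, max_eq_left (by omega)] at hlt
      have e : (p : ℝ) * S3 θ 0 + p * S3 θ 1 + r = p * θ 0 + ((0 : ℤ) : ℝ) * θ 1 + r := by
        rw [S3_zero, S3_one]; push_cast; ring
      rw [max_self, e]
      exact hlt
    · left; left; left; left
      refine ⟨hp, hq, ?_⟩
      simp only
      rw [abs_of_pos hp, abs_of_pos hq] at hlt
      exact hlt

theorem lower_dim (w : ℝ) (hw : 2 < w) : ENNReal.ofReal (1 + 3 / (w + 1)) ≤ dimH (E' w) := by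
  by_contra hcon
  push Not at hcon
  obtain ⟨s, hs0, hs1, hs2⟩ := ENNReal.lt_iff_exists_real_btwn.1 hcon
  rw [ENNReal.ofReal_lt_ofReal_iff_of_nonneg hs0] at hs2
  have hq : 0 < 3 / (w + 1) := by positivity
  -- enlarge `s` and then `w`
  obtain ⟨s', hs'⟩ : ∃ s' : ℝ, s' = max s (1 + 3 / (w + 1) / 2) := ⟨_, rfl⟩
  have h1 : s ≤ s' := hs' ▸ le_max_left _ _
  have h2 : 1 < s' := by
    have : 1 + 3 / (w + 1) / 2 ≤ s' := hs' ▸ le_max_right _ _
    linarith
  have h3 : s' < 1 + 3 / (w + 1) := by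
    rw [hs']; exact max_lt hs2 (by linarith)
  have h6 := lower 2 2 (by norm_num) le_rfl (w + 1) s' (by norm_num; linarith) (by norm_num; exact h2)
    (by norm_num; exact h3)
  have h7 := h6.trans (dimH_mono (lower_sub w w (by linarith) le_rfl))
  rw [dimH_union, dimH_union, dimH_union, S1.dimH_preimage, S2.dimH_preimage, S3.dimH_preimage,
    max_self, max_self, max_self] at h7
  exact absurd ((ENNReal.ofReal_le_ofReal h1).trans h7) (not_le.2 hs1)

/-! ## the upper inclusion -/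

/-- the skew matrix of Plücker coordinates of the plane with normal vector `(a, b, c)` -/
def X (a b c : ℤ) : Matrix (Fin 3) (Fin 3) ℤ := !![0, c, -b; -c, 0, a; b, -a, 0]

/-- two rows spanning the plane with normal vector `(a, b, c)`, `b ≠ 0` -/
def Bm (a b c : ℤ) : Matrix (Fin 2) (Fin 3) ℤ := !![-b, a, 0; 0, -c, b]

theorem bm_mnr (a b c : ℤ) (f : Fin 2 → Fin 3) : mnr (Bm a b c) f = b * X a b c (f 0) (f 1) := by
  unfold mnr
  rw [det_fin_two]
  simp only [submatrix_apply, id]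
  obtain ⟨i, hi⟩ : ∃ i, f 0 = i := ⟨_, rfl⟩
  obtain ⟨j, hj⟩ : ∃ j, f 1 = j := ⟨_, rfl⟩
  rw [hi, hj]
  fin_cases i <;> fin_cases j <;> simp [Bm, X] <;> ring

theorem bm_isPP (a b c : ℤ) (hb : b ≠ 0) (hprim : ∀ g : ℤ, g ∣ a → g ∣ b → g ∣ c → IsUnit g) :
    IsPP (Submodule.span ℝ (Set.range fun i => (fun j => ((Bm a b c i j : ℤ) : ℝ))))
      (fun f : Fin 2 → Fin 3 => X a b c (f 0) (f 1)) := by
  refine ⟨fun g hg => ?_, Bm a b c, ?_, rfl, b, hb, bm_mnr a b c⟩
  · refine hprim g ?_ ?_ ?_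
    · have := hg ![1, 2]; simpa [X] using this
    · have := hg ![2, 0]; simpa [X] using this
    · have := hg ![0, 1]; simpa [X] using this
  · rw [Fintype.linearIndependent_iff]
    intro g hg
    rw [Fin.sum_univ_two] at hg
    have h0 := congrFun hg 0
    have h2 := congrFun hg 2
    simp [Bm, hb] at h0 h2
    intro i
    fin_cases i
    · exact h0
    · exact h2

theorem bm_mem (a b c : ℤ) (hb : b ≠ 0) (P : Fin 3 → ℝ) (h : (a : ℝ) * P 0 + b * P 1 + c * P 2 = 0) :
    P ∈ Submodule.span ℝ (Set.range fun i => (fun j => ((Bm a b c i j : ℤ) : ℝ))) := by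
  have hbR : (b : ℝ) ≠ 0 := by exact_mod_cast hb
  have e : P = (-(P 0) / b) • (fun j => ((Bm a b c 0 j : ℤ) : ℝ)) +
      (P 2 / b) • (fun j => ((Bm a b c 1 j : ℤ) : ℝ)) := by
    ext j
    fin_cases j
    · simp [Bm]; field_simp
    · simp [Bm]; field_simp; linear_combination h
    · simp [Bm]; field_simp
  rw [e]
  exact add_mem (Submodule.smul_mem _ _ (Submodule.subset_span ⟨0, rfl⟩))
    (Submodule.smul_mem _ _ (Submodule.subset_span ⟨1, rfl⟩))

/-- the points of rational lines -/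
def Ln (t : ℤ × ℤ × ℤ) : Set (Fin 2 → ℝ) :=
  {θ | 0 < t.1 ∧ (t.1 : ℝ) * θ 0 + (t.2.1 : ℝ) * θ 1 + (t.2.2 : ℝ) = 0}

theorem ln_dim (t : ℤ × ℤ × ℤ) : dimH (Ln t) ≤ 1 := by
  have h1 : Ln t ⊆ Set.range (fun x : ℝ => (![-(t.2.1 * x + t.2.2) / t.1, x] : Fin 2 → ℝ)) := by
    rintro θ ⟨h0, h⟩
    have hR : (t.1 : ℝ) ≠ 0 := by exact_mod_cast h0.ne'
    refine ⟨θ 1, ?_⟩
    ext i
    fin_cases i
    · simp; field_simp; linear_combination -h
    · simp
  refine (dimH_mono h1).trans ?_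
  have h2 : ContDiff ℝ 1 (fun x : ℝ => (![-(t.2.1 * x + t.2.2) / t.1, x] : Fin 2 → ℝ)) := by
    rw [contDiff_pi]
    intro i
    fin_cases i
    · simp only [Fin.zero_eta, cons_val_zero]; fun_prop
    · exact contDiff_id
  refine (h2.dimH_range_le).trans ?_
  simp

theorem upper_sub (w : ℝ) (hw : 0 < w) : E' w ⊆
    (⋃ K : ℕ, {θ : Fin 2 → ℝ | (∀ i, |θ i| ≤ ((K + 1 : ℕ) : ℝ)) ∧
      θ ∈ WS 2 2 (((K : ℝ) + 1) * (3 * ((K : ℝ) + 1)) ^ (w + 1)) (w + 1)}) ∪ ⋃ t : ℤ × ℤ × ℤ, Ln t := by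
  classical
  rintro θ ⟨c, hc, hinf⟩
  by_cases hline : ∃ t : ℤ × ℤ × ℤ, θ ∈ Ln t
  · right
    obtain ⟨t, ht⟩ := hline
    exact mem_iUnion.2 ⟨t, ht⟩
  push Not at hline
  left
  obtain ⟨K, hK⟩ := exists_nat_gt (max ‖θ‖ c)
  have hKθ : ‖θ‖ < K := lt_of_le_of_lt (le_max_left _ _) hK
  have hKc : c < K := lt_of_le_of_lt (le_max_right _ _) hK
  have hb : ∀ i, |θ i| ≤ K := by
    intro i
    have h2 := norm_le_pi_norm θ i
    rw [Real.norm_eq_abs] at h2
    linarith
  rw [mem_iUnion]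
  refine ⟨K, fun i => ?_, ?_⟩
  · have := hb i
    push_cast; linarith
  intro hfin
  -- a bound for the heights
  obtain ⟨H, hH⟩ : ∃ H : ℕ, ∀ (L : Submodule ℝ (Fin 3 → ℝ)) (p : (Fin 2 → Fin 3) → ℤ), IsPP L p →
      (∃ P ∈ L, P 0 = 1 ∧ ∀ i : Fin 2, |P i.succ - θ i| ≤
        (((K : ℝ) + 1) * (3 * ((K : ℝ) + 1)) ^ (w + 1)) * (ht p : ℝ) ^ (-(w + 1))) → ht p ≤ H := by
    have hex : ∀ L : Submodule ℝ (Fin 3 → ℝ), ∃ m : ℕ, ∀ p : (Fin 2 → Fin 3) → ℤ, IsPP L p → ht p = m := by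
      intro L
      by_cases h : ∃ p : (Fin 2 → Fin 3) → ℤ, IsPP L p
      · obtain ⟨p, hp⟩ := h
        exact ⟨ht p, fun p' hp' => hp'.ht_eq hp⟩
      · exact ⟨0, fun p hp => absurd ⟨p, hp⟩ h⟩
    choose m hm using hex
    refine ⟨hfin.toFinset.sup m, ?_⟩
    intro L p hp hP
    rw [hm L p hp]
    exact Finset.le_sup (f := m) (hfin.mem_toFinset.2 ⟨p, hp, hP⟩)
  -- the finitely many primitive vectors stay away from the point
  obtain ⟨δ, hδ, hδ'⟩ : ∃ δ : ℝ, 0 < δ ∧ ∀ a b c' : ℤ, 0 < b → a.natAbs ≤ H → b.natAbs ≤ H → c'.natAbs ≤ H →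
      δ ≤ |(b : ℝ) * θ 0 + c' * θ 1 + a| := by
    obtain ⟨F, hF⟩ : ∃ F : Finset (ℤ × ℤ × ℤ), F = (Finset.Icc (1 : ℤ) H) ×ˢ
      (Finset.Icc (-(H : ℤ)) H) ×ˢ (Finset.Icc (-(H : ℤ)) H) := ⟨_, rfl⟩
    rcases F.eq_empty_or_nonempty with hE | hE
    · refine ⟨1, one_pos, fun a b c' hb ha1 hb1 hc1 => ?_⟩
      exfalso
      have : (b, c', a) ∈ F := by
        rw [hF]; simp only [Finset.mem_product, Finset.mem_Icc]; omega
      rw [hE] at this
      exact absurd this (Finset.notMem_empty _)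
    · obtain ⟨t, ht, hmin⟩ := F.exists_min_image
        (fun t : ℤ × ℤ × ℤ => |(t.1 : ℝ) * θ 0 + t.2.1 * θ 1 + t.2.2|) hE
      refine ⟨|(t.1 : ℝ) * θ 0 + t.2.1 * θ 1 + t.2.2|, ?_, ?_⟩
      · rw [abs_pos]
        intro h0
        refine hline t ⟨?_, h0⟩
        rw [hF] at ht
        simp only [Finset.mem_product, Finset.mem_Icc] at ht
        omega
      · intro a b c' hb ha1 hb1 hc1
        refine hmin (b, c', a) ?_
        rw [hF]; simp only [Finset.mem_product, Finset.mem_Icc]; omega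
  -- large triples
  obtain ⟨M0, hM0⟩ : ∃ M0 : ℕ, ∀ M : ℤ, (M0 : ℤ) ≤ M → c * (M : ℝ) ^ (-w) < δ := by
    have h1 : Filter.Tendsto (fun h : ℝ => c * h ^ (-w)) Filter.atTop (nhds (c * 0)) :=
      (tendsto_rpow_neg_atTop hw).const_mul c
    rw [mul_zero] at h1
    obtain ⟨x, hx⟩ := Filter.eventually_atTop.1 (h1.eventually (gt_mem_nhds hδ))
    obtain ⟨M0, hM0⟩ := exists_nat_ge x
    refine ⟨M0, fun M hM => hx _ (hM0.trans ?_)⟩
    exact_mod_cast hM
  apply hinf
  -- all triples are bounded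
  have hKR : (0 : ℝ) ≤ K := Nat.cast_nonneg K
  refine ((Finset.finite_toSet ((Finset.Icc (1 : ℤ) M0) ×ˢ
      (Finset.Icc (1 : ℤ) M0) ×ˢ (Finset.Icc (-(3 * (K + 1) * M0 : ℤ)) (3 * (K + 1) * M0))))).subset ?_
  rintro ⟨p, q, r⟩ ⟨hp, hq, hlt⟩
  simp only at hp hq hlt
  obtain ⟨M, hM⟩ : ∃ M : ℤ, M = max p q := ⟨_, rfl⟩
  rw [← hM] at hlt
  have hpM : p ≤ M := hM ▸ le_max_left _ _
  have hqM : q ≤ M := hM ▸ le_max_right _ _
  have hM1 : 1 ≤ M := by omega
  have hMR : (1 : ℝ) ≤ M := by exact_mod_cast hM1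
  have hpR : (0 : ℝ) < p := by exact_mod_cast hp
  have hqR : (0 : ℝ) < q := by exact_mod_cast hq
  have hpMR : (p : ℝ) ≤ M := by exact_mod_cast hpM
  have hqMR : (q : ℝ) ≤ M := by exact_mod_cast hqM
  have hpow1 : (M : ℝ) ^ (-w) ≤ 1 := Real.rpow_le_one_of_one_le_of_nonpos hMR (by linarith)
  have hpow0 : 0 < (M : ℝ) ^ (-w) := by positivity
  -- the size of `r`
  have hr : |(r : ℝ)| ≤ 3 * (K + 1) * M := by
    have h1 : (r : ℝ) = ((p : ℝ) * θ 0 + q * θ 1 + r) - p * θ 0 - q * θ 1 := by ring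
    have h2 := hb 0
    have h3 := hb 1
    calc |(r : ℝ)| = |((p : ℝ) * θ 0 + q * θ 1 + r) - p * θ 0 - q * θ 1| := by rw [← h1]
      _ ≤ |(p : ℝ) * θ 0 + q * θ 1 + r| + |(p : ℝ) * θ 0| + |(q : ℝ) * θ 1| :=
          (abs_sub _ _).trans (by gcongr; exact abs_sub _ _)
      _ ≤ c * (M : ℝ) ^ (-w) + M * K + M * K := by
          rw [abs_mul, abs_mul, abs_of_pos hpR, abs_of_pos hqR]
          gcongr
      _ ≤ K * M + M * K + M * K := by
          have : c * (M : ℝ) ^ (-w) ≤ K * M := by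
            calc c * (M : ℝ) ^ (-w) ≤ K * 1 := by gcongr
              _ ≤ K * M := by gcongr
          linarith
      _ ≤ 3 * (K + 1) * M := by nlinarith
  have hrZ : |r| ≤ 3 * (K + 1) * M := by exact_mod_cast hr
  -- `M` is small
  have hMM0 : M < M0 := by
    by_contra hcon
    push Not at hcon
    have hsmall := hM0 M hcon
    -- the primitive vector
    obtain ⟨g, hg⟩ : ∃ g : ℕ, g = Int.gcd (Int.gcd p q) r := ⟨_, rfl⟩
    have hg0 : 0 < g := by
      rw [hg]
      apply Nat.pos_of_ne_zero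
      intro h
      rw [Int.gcd_eq_zero_iff] at h
      have := h.1
      rw [Int.natCast_eq_zero, Int.gcd_eq_zero_iff] at this
      omega
    have hgZ : (0 : ℤ) < g := by exact_mod_cast hg0
    have hgp : (g : ℤ) ∣ p := by
      rw [hg]; exact (Int.gcd_dvd_left _ _).trans (Int.gcd_dvd_left _ _)
    have hgq : (g : ℤ) ∣ q := by
      rw [hg]; exact (Int.gcd_dvd_left _ _).trans (Int.gcd_dvd_right _ _)
    have hgr : (g : ℤ) ∣ r := by
      rw [hg]; exact Int.gcd_dvd_right _ _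
    obtain ⟨p', hp'⟩ := hgp
    obtain ⟨q', hq'⟩ := hgq
    obtain ⟨r', hr'⟩ := hgr
    have hgR : (1 : ℝ) ≤ g := by exact_mod_cast hg0
    have hprim : ∀ e : ℤ, e ∣ r' → e ∣ p' → e ∣ q' → IsUnit e := by
      intro e he1 he2 he3
      have h1 : (g : ℤ) * e ∣ (g : ℤ) := by
        have h2 : (g : ℤ) * e ∣ p := hp' ▸ mul_dvd_mul_left _ he2
        have h3 : (g : ℤ) * e ∣ q := hq' ▸ mul_dvd_mul_left _ he3
        have h4 : (g : ℤ) * e ∣ r := hr' ▸ mul_dvd_mul_left _ he1
        have h5 := Int.dvd_coe_gcd (Int.dvd_coe_gcd h2 h3) h4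
        rwa [← hg] at h5
      have h6 : (g : ℤ) * e ∣ (g : ℤ) * 1 := by rwa [mul_one]
      exact isUnit_of_dvd_one ((mul_dvd_mul_iff_left hgZ.ne').1 h6)
    have hp'0 : 0 < p' := by
      by_contra h
      push Not at h
      nlinarith
    have hq'0 : 0 < q' := by
      by_contra h
      push Not at h
      nlinarith
    have hPP := bm_isPP r' p' q' hp'0.ne' hprim
    obtain ⟨h, hh⟩ : ∃ h : ℕ, h = ht (fun f : Fin 2 → Fin 3 => X r' p' q' (f 0) (f 1)) := ⟨_, rfl⟩
    have hX : ∀ i j : Fin 3, ((X r' p' q' i j).natAbs : ℤ) ≤ 3 * (K + 1) * M := by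
      have a1 : |r'| ≤ |r| := by
        rw [hr', abs_mul, abs_of_pos hgZ]
        nlinarith [abs_nonneg r']
      have a2 : |p'| ≤ |p| := by
        rw [hp', abs_mul, abs_of_pos hgZ]
        nlinarith [abs_nonneg p']
      have a3 : |q'| ≤ |q| := by
        rw [hq', abs_mul, abs_of_pos hgZ]
        nlinarith [abs_nonneg q']
      rw [abs_of_pos hp] at a2
      rw [abs_of_pos hq] at a3
      have hKM : M ≤ 3 * (K + 1) * M := by nlinarith [Int.natCast_nonneg K]
      intro i j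
      rw [Int.natCast_natAbs]
      have b0 : |(0 : ℤ)| ≤ 3 * (K + 1) * M := by rw [abs_zero]; omega
      have b1 : |r'| ≤ 3 * (K + 1) * M := by omega
      have b2 : |p'| ≤ 3 * (K + 1) * M := by omega
      have b3 : |q'| ≤ 3 * (K + 1) * M := by omega
      have b1' : |-r'| ≤ 3 * (K + 1) * M := by rwa [abs_neg]
      have b2' : |-p'| ≤ 3 * (K + 1) * M := by rwa [abs_neg]
      have b3' : |-q'| ≤ 3 * (K + 1) * M := by rwa [abs_neg]
      fin_cases i <;> fin_cases j
      · exact b0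
      · exact b3
      · exact b2'
      · exact b3'
      · exact b0
      · exact b1
      · exact b2
      · exact b1'
      · exact b0
    have hhM : (h : ℝ) ≤ 3 * (K + 1) * M := by
      have h1 : ((3 * (K + 1) * M : ℤ).toNat : ℤ) = 3 * (K + 1) * M := Int.toNat_of_nonneg (by positivity)
      have h2 : h ≤ (3 * (K + 1) * M : ℤ).toNat := by
        rw [hh, ht_le_iff]
        intro f
        have := hX (f 0) (f 1)
        rw [← h1] at this
        exact_mod_cast this
      have h3 : (h : ℤ) ≤ 3 * (K + 1) * M := by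
        rw [← h1]; exact_mod_cast h2
      exact_mod_cast h3
    have hh1 : (1 : ℝ) ≤ h := by rw [hh]; exact_mod_cast hPP.ht_pos
    have hh0 : (0 : ℝ) < h := by linarith
    -- the radius
    have hrad : c * (M : ℝ) ^ (-w) / M ≤
        (((K : ℝ) + 1) * (3 * ((K : ℝ) + 1)) ^ (w + 1)) * (h : ℝ) ^ (-(w + 1)) := by
      have hM0' : (0 : ℝ) < M := by linarith
      have e1 : (M : ℝ) ^ (-w) / M = (M : ℝ) ^ (-(w + 1)) := by
        rw [neg_add, Real.rpow_add hM0', Real.rpow_neg_one, div_eq_mul_inv]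
      have e2 : (M : ℝ) ^ (-(w + 1)) ≤ ((h : ℝ) / (3 * (K + 1))) ^ (-(w + 1)) := by
        refine Real.rpow_le_rpow_of_nonpos (by positivity) ?_ (by linarith)
        rw [div_le_iff₀ (by positivity)]
        linarith
      have e3 : ((h : ℝ) / (3 * (K + 1))) ^ (-(w + 1)) = (3 * ((K : ℝ) + 1)) ^ (w + 1) * (h : ℝ) ^ (-(w + 1)) := by
        rw [Real.div_rpow hh0.le (by positivity), Real.rpow_neg (by positivity : (0 : ℝ) ≤ 3 * (K + 1)),
          div_inv_eq_mul, mul_comm]
      calc c * (M : ℝ) ^ (-w) / M = c * ((M : ℝ) ^ (-w) / M) := by ring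
        _ = c * (M : ℝ) ^ (-(w + 1)) := by rw [e1]
        _ ≤ (K + 1) * ((3 * ((K : ℝ) + 1)) ^ (w + 1) * (h : ℝ) ^ (-(w + 1))) := by
            rw [← e3]
            have : c ≤ K + 1 := by linarith
            gcongr
        _ = _ := by ring
    obtain ⟨ε, hε⟩ : ∃ ε : ℝ, ε = (p : ℝ) * θ 0 + q * θ 1 + r := ⟨_, rfl⟩
    rw [← hε] at hlt
    have hpg : (p : ℝ) = g * p' := by exact_mod_cast hp'
    have hqg : (q : ℝ) = g * q' := by exact_mod_cast hq'
    have hrg : (r : ℝ) = g * r' := by exact_mod_cast hr'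
    have hg0R : (g : ℝ) ≠ 0 := by linarith
    have hht : h ≤ H := by
      rw [hh]
      refine hH _ _ hPP ?_
      rw [← hh]
      rcases le_total q p with hqp | hqp
      · have hMp : M = p := by rw [hM]; exact max_eq_left hqp
        refine ⟨![1, θ 0 - ε / p, θ 1], bm_mem _ _ _ hp'0.ne' _ ?_, rfl, ?_⟩
        · simp only [cons_val_zero, cons_val_one, cons_val_two]
          have h1 : (g : ℝ) * ((r' : ℝ) * 1 + p' * (θ 0 - ε / p) + q' * θ 1) = 0 := by
            have h2 : (g : ℝ) * ((r' : ℝ) * 1 + p' * (θ 0 - ε / p) + q' * θ 1) =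
                (g * p') * θ 0 + (g * q') * θ 1 + g * r' - (g * p') * (ε / p) := by ring
            rw [h2, ← hpg, ← hqg, ← hrg, ← hε]
            field_simp
            ring
          exact (mul_eq_zero.1 h1).resolve_left hg0R
        · intro i
          fin_cases i
          · simp only [Fin.zero_eta, Fin.succ_zero_eq_one, cons_val_one, cons_val_zero]
            rw [show θ 0 - ε / p - θ 0 = -(ε / p) by ring, abs_neg, abs_div, abs_of_pos hpR]
            refine le_trans ?_ hrad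
            rw [hMp] at hlt ⊢
            gcongr
          · show |θ 1 - θ 1| ≤ _
            rw [sub_self, abs_zero]
            positivity
      · have hMq : M = q := by rw [hM]; exact max_eq_right hqp
        refine ⟨![1, θ 0, θ 1 - ε / q], bm_mem _ _ _ hp'0.ne' _ ?_, rfl, ?_⟩
        · simp only [cons_val_zero, cons_val_one, cons_val_two]
          have h1 : (g : ℝ) * ((r' : ℝ) * 1 + p' * θ 0 + q' * (θ 1 - ε / q)) = 0 := by
            have h2 : (g : ℝ) * ((r' : ℝ) * 1 + p' * θ 0 + q' * (θ 1 - ε / q)) =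
                (g * p') * θ 0 + (g * q') * θ 1 + g * r' - (g * q') * (ε / q) := by ring
            rw [h2, ← hpg, ← hqg, ← hrg, ← hε]
            field_simp
            ring
          exact (mul_eq_zero.1 h1).resolve_left hg0R
        · intro i
          fin_cases i
          · simp only [Fin.zero_eta, Fin.succ_zero_eq_one, cons_val_one, cons_val_zero]
            rw [sub_self, abs_zero]
            positivity
          · show |(θ 1 - ε / q) - θ 1| ≤ _
            rw [show θ 1 - ε / q - θ 1 = -(ε / q) by ring, abs_neg, abs_div, abs_of_pos hqR]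
            refine le_trans ?_ hrad
            rw [hMq] at hlt ⊢
            gcongr
    -- contradiction with the distance
    have hentries : ∀ i j : Fin 3, (X r' p' q' i j).natAbs ≤ H := by
      intro i j
      have h1 := (ht_le_iff (fun f : Fin 2 → Fin 3 => X r' p' q' (f 0) (f 1)) H).1 (by rw [← hh]; exact hht) ![i, j]
      simpa using h1
    have hd := hδ' r' p' q' hp'0 (by simpa [X] using hentries 1 2) (by simpa [X] using hentries 2 0)
      (by simpa [X] using hentries 0 1)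
    have h1 : |ε| = g * |(p' : ℝ) * θ 0 + q' * θ 1 + r'| := by
      rw [hε, hpg, hqg, hrg, show (g : ℝ) * p' * θ 0 + g * q' * θ 1 + g * r' =
        g * (p' * θ 0 + q' * θ 1 + r') by ring, abs_mul, abs_of_nonneg (by linarith : (0 : ℝ) ≤ g)]
    have h2 : |(p' : ℝ) * θ 0 + q' * θ 1 + r'| ≤ |ε| := by
      rw [h1]
      have := abs_nonneg ((p' : ℝ) * θ 0 + q' * θ 1 + r')
      nlinarith
    linarith
  simp only [Finset.coe_product, Finset.coe_Icc, mem_prod, mem_Icc]
  have h5 : (3 * (K + 1) * M : ℤ) ≤ 3 * (K + 1) * M0 := by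
    have : (0 : ℤ) ≤ 3 * (K + 1) := by positivity
    exact mul_le_mul_of_nonneg_left hMM0.le this
  have h6 := abs_le.1 hrZ
  refine ⟨⟨by omega, by omega⟩, ⟨by omega, by omega⟩, by linarith [h6.1], by linarith [h6.2]⟩

theorem upper_dim (w : ℝ) (hw : 2 < w) : dimH (E' w) ≤ ENNReal.ofReal (1 + 3 / (w + 1)) := by
  have hup : ∀ s : ℝ, 1 + 3 / (w + 1) < s → dimH (E' w) ≤ ENNReal.ofReal s := by
    intro s hs
    have h3 : 0 < 3 / (w + 1) := by positivity
    refine (dimH_mono (upper_sub w (by linarith))).trans ?_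
    rw [dimH_union, dimH_iUnion, dimH_iUnion]
    refine max_le (iSup_le fun K => ?_) (iSup_le fun t => ?_)
    · exact upper 2 2 (K + 1) (by omega) (by norm_num) le_rfl _ (w + 1) s (by positivity) (by linarith)
        (by norm_num; exact hs)
    · refine (ln_dim t).trans ?_
      rw [← ENNReal.ofReal_one]
      exact ENNReal.ofReal_le_ofReal (by linarith)
  by_contra hcon
  push Not at hcon
  obtain ⟨s, hs0, hs1, hs2⟩ := ENNReal.lt_iff_exists_real_btwn.1 hcon
  rw [ENNReal.ofReal_lt_ofReal_iff_of_nonneg (by positivity)] at hs1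
  exact absurd (hup s hs1) (not_le.2 hs2)

theorem dim_E' (w : ℝ) (hw : 2 < w) : dimH (E' w) = ENNReal.ofReal (1 + 3 / (w + 1)) :=
  le_antisymm (upper_dim w hw) (lower_dim w hw)

end Pool.Agent.W2helper5.PosForm
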